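import Mathlib

set_option autoImplicit false

universe u

namespace Pool.Agent.Results.MP_cc637b_co.Negative

open Order

section Defs

variable {V : Type u}

/-- Oriented simple graph: no loops and at most one of `uv`, `vu` is an arc. -/
def Oriented (D : Digraph V) : Prop :=
  (∀ v, ¬ D.Adj v v) ∧ ∀ u v, D.Adj u v → ¬ D.Adj v u

/-- `A` is the arc set of a (finite) directed cycle of `D`: the vertices `c 0, ..., c n` are
distinct and `A` consists of the arcs from each to the cyclically next one. -/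
def IsDirectedCycle (D : Digraph V) (A : Set (V × V)) : Prop :=
  ∃ (n : ℕ) (c : Fin (n + 1) → V), Function.Injective c ∧
    (∀ i, D.Adj (c i) (c (i + 1))) ∧ A = Set.range (fun i => (c i, c (i + 1)))

/-- The digraph obtained from `D` by reversing the arcs in `A`. -/
def reverse (D : Digraph V) (A : Set (V × V)) : Digraph V where
  Adj u v := (D.Adj u v ∧ (u, v) ∉ A) ∨ (v, u) ∈ A

/-- The limit of the digraphs `S ξ`, `ξ < α`: it has the arcs that are eventually present. -/
def limitDigraph (α : Ordinal.{u}) (S : Ordinal.{u} → Digraph V) : Digraph V where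
  Adj u v := ∃ β < α, ∀ ξ, β ≤ ξ → ξ < α → (S ξ).Adj u v

/-- Every edge lies on only finitely many of the cycles `C ξ`, `ξ < α`. -/
def LocallyFinite (α : Ordinal.{u}) (C : Ordinal.{u} → Set (V × V)) : Prop :=
  ∀ u v, {ξ | ξ < α ∧ ((u, v) ∈ C ξ ∨ (v, u) ∈ C ξ)}.Finite

/-- `Rev D α C R`: the transfinite sequence of cycles `C ξ`, `ξ < α`, is a reversal sequence
of `D`, and reversing its cycles one after the other turns `D` into `R`. The empty sequence is a
reversal sequence; a reversal sequence with result `R` may be continued by a directed cycle of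
`R`; and at a limit length `α` the union of the reversal sequences of all lengths `ξ < α` is a
reversal sequence if it is locally finite, its result being the limit of the results `S ξ`.
(Only the values `C ξ` with `ξ < α` matter.) -/
inductive Rev (D : Digraph V) :
    Ordinal.{u} → (Ordinal.{u} → Set (V × V)) → Digraph V → Prop
  | empty (C : Ordinal.{u} → Set (V × V)) : Rev D 0 C D
  | snoc (α : Ordinal.{u}) (C : Ordinal.{u} → Set (V × V)) (R : Digraph V)
      (h : Rev D α C R) (hc : IsDirectedCycle R (C α)) : Rev D (α + 1) C (reverse R (C α))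
  | union (α : Ordinal.{u}) (C : Ordinal.{u} → Set (V × V)) (S : Ordinal.{u} → Digraph V)
      (hα : IsSuccLimit α) (h : ∀ ξ < α, Rev D ξ C (S ξ)) (hl : LocallyFinite α C) :
      Rev D α C (limitDigraph α S)

/-- The subdigraph of `D` induced on `X` is strong. -/
def StrongOn (D : Digraph V) (X : Set V) : Prop :=
  ∀ u ∈ X, ∀ v ∈ X, Relation.ReflTransGen (fun a b => a ∈ X ∧ b ∈ X ∧ D.Adj a b) u v

/-- `X` is the vertex set of a strong component of `D`. -/
def IsStrongComponent (D : Digraph V) (X : Set V) : Prop :=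
  Maximal (fun Y : Set V => Y.Nonempty ∧ StrongOn D Y) X

/-- The arcs of `D` entering the vertex set `X`. -/
def entering (D : Digraph V) (X : Set V) : Set (V × V) :=
  {e | D.Adj e.1 e.2 ∧ e.1 ∉ X ∧ e.2 ∈ X}

end Defs

section General

variable {V : Type u}

/-- unrolled reversal sequence -/
structure Unr (D : Digraph V) (α : Ordinal.{u}) (C : Ordinal.{u} → Set (V × V))
    (S : Ordinal.{u} → Digraph V) : Prop where
  zero : S 0 = D
  cyc : ∀ ξ < α, IsDirectedCycle (S ξ) (C ξ)
  succ : ∀ ξ < α, S (ξ + 1) = reverse (S ξ) (C ξ)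
  lf : LocallyFinite α C
  lim : ∀ γ ≤ α, IsSuccLimit γ → S γ = limitDigraph γ S

theorem limitDigraph_congr {α : Ordinal.{u}} {S T : Ordinal.{u} → Digraph V}
    (h : ∀ ξ < α, S ξ = T ξ) : limitDigraph α S = limitDigraph α T := by
  ext u v
  constructor
  · rintro ⟨β, hβ, h'⟩
    exact ⟨β, hβ, fun ξ h1 h2 => h ξ h2 ▸ h' ξ h1 h2⟩
  · rintro ⟨β, hβ, h'⟩
    exact ⟨β, hβ, fun ξ h1 h2 => (h ξ h2).symm ▸ h' ξ h1 h2⟩

theorem unr_unique {D : Digraph V} {α β : Ordinal.{u}} {C : Ordinal.{u} → Set (V × V)}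
    {S T : Ordinal.{u} → Digraph V} (hS : Unr D α C S) (hT : Unr D β C T) :
    ∀ ξ, ξ ≤ α → ξ ≤ β → S ξ = T ξ := by
  intro ξ
  induction ξ using WellFoundedLT.induction with
  | ind ξ ih =>
    intro h1 h2
    rcases Ordinal.zero_or_succ_or_isSuccLimit ξ with rfl | ⟨η, rfl⟩ | hl
    · rw [hS.zero, hT.zero]
    · have hη : η < Order.succ η := Order.lt_succ η
      have e := ih η hη (hη.le.trans h1) (hη.le.trans h2)
      have a := hS.succ η (lt_of_lt_of_le hη h1)
      have b := hT.succ η (lt_of_lt_of_le hη h2)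
      rw [Order.succ_eq_add_one, a, b, e]
    · rw [hS.lim ξ h1 hl, hT.lim ξ h2 hl]
      exact limitDigraph_congr (fun η hη => ih η hη (hη.le.trans h1) (hη.le.trans h2))

theorem LocallyFinite.mono {α β : Ordinal.{u}} {C : Ordinal.{u} → Set (V × V)} (h : α ≤ β)
    (hl : LocallyFinite β C) : LocallyFinite α C := fun u v =>
  (hl u v).subset (fun _ hξ => ⟨lt_of_lt_of_le hξ.1 h, hξ.2⟩)

theorem Rev.unr {D : Digraph V} {α : Ordinal.{u}} {C : Ordinal.{u} → Set (V × V)}
    {R : Digraph V} (h : Rev D α C R) : ∃ S, Unr D α C S ∧ S α = R := by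
  classical
  induction h with
  | empty C =>
    refine ⟨fun _ => D, ⟨rfl, fun ξ hξ => absurd hξ (not_lt_bot), fun ξ hξ => absurd hξ (not_lt_bot),
      ?_, ?_⟩, rfl⟩
    · intro u v
      convert Set.finite_empty
      ext ξ
      constructor
      · rintro ⟨h, _⟩
        exact absurd h not_lt_bot
      · intro h
        exact absurd h (by simp)
    · intro γ hγ hl
      exact absurd (le_antisymm hγ bot_le) hl.ne_bot
  | snoc α C R h hc ih =>
    obtain ⟨S, hS, hR⟩ := ih
    have hlt : α < α + 1 := by rw [← Order.succ_eq_add_one]; exact Order.lt_succ α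
    refine ⟨fun ξ => if ξ ≤ α then S ξ else reverse R (C α), ⟨?_, ?_, ?_, ?_, ?_⟩, ?_⟩
    · simp [hS.zero]
    · intro ξ hξ
      have hξ' : ξ ≤ α := Order.lt_add_one_iff.1 hξ
      simp only [hξ', if_true]
      rcases hξ'.lt_or_eq with h1 | rfl
      · exact hS.cyc ξ h1
      · rw [hR]; exact hc
    · intro ξ hξ
      have hξ' : ξ ≤ α := Order.lt_add_one_iff.1 hξ
      simp only [hξ', if_true]
      rcases hξ'.lt_or_eq with h1 | rfl
      · have : ξ + 1 ≤ α := Order.add_one_le_of_lt h1
        simp only [this, if_true]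
        exact hS.succ ξ h1
      · have : ¬ (ξ + 1 ≤ ξ) := not_le.2 hlt
        simp only [this, if_false]
        rw [hR]
    · intro u v
      refine ((hS.lf u v).union (Set.finite_singleton α)).subset ?_
      rintro ξ ⟨h1, h2⟩
      rcases (Order.lt_add_one_iff.1 h1).lt_or_eq with h3 | rfl
      · exact Or.inl ⟨h3, h2⟩
      · exact Or.inr rfl
    · intro γ hγ hl
      have hγ' : γ ≤ α := by
        rcases hγ.lt_or_eq with h1 | rfl
        · exact Order.lt_add_one_iff.1 h1
        · exact absurd hl (by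
            have := Order.not_isSuccLimit_succ α
            rwa [Order.succ_eq_add_one] at this)
      simp only [hγ', if_true]
      rw [hS.lim γ hγ' hl]
      refine limitDigraph_congr ?_
      intro ξ hξ
      simp only [(hξ.le.trans hγ'), if_true]
    · simp only [not_le.2 hlt, if_false]
  | union α C S hα h hl ih =>
    have key : ∀ ξ, ξ < α → ∀ η, η ≤ ξ → ∀ T, Unr D ξ C T → T ξ = S ξ → T η = S η := by
      intro ξ hξ η hη T hT _
      obtain ⟨T', hT', e'⟩ := ih η (lt_of_le_of_lt hη hξ)
      rw [← e']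
      exact unr_unique hT hT' η hη le_rfl
    refine ⟨fun ξ => if ξ < α then S ξ else limitDigraph α S, ⟨?_, ?_, ?_, hl, ?_⟩, ?_⟩
    · have h0 : (0 : Ordinal.{u}) < α := hα.bot_lt
      simp only [h0, if_true]
      obtain ⟨T, hT, e⟩ := ih 0 h0
      rw [← e, hT.zero]
    · intro ξ hξ
      simp only [hξ, if_true]
      have h1 : ξ + 1 < α := by
        have := hα.succ_lt hξ
        rwa [Order.succ_eq_add_one] at this
      obtain ⟨T, hT, e⟩ := ih (ξ + 1) h1
      have hlt : ξ < ξ + 1 := by rw [← Order.succ_eq_add_one]; exact Order.lt_succ ξ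
      have := hT.cyc ξ hlt
      rwa [key (ξ + 1) h1 ξ hlt.le T hT e] at this
    · intro ξ hξ
      have h1 : ξ + 1 < α := by
        have := hα.succ_lt hξ
        rwa [Order.succ_eq_add_one] at this
      simp only [hξ, h1, if_true]
      obtain ⟨T, hT, e⟩ := ih (ξ + 1) h1
      have hlt : ξ < ξ + 1 := by rw [← Order.succ_eq_add_one]; exact Order.lt_succ ξ
      have := hT.succ ξ hlt
      rwa [e, key (ξ + 1) h1 ξ hlt.le T hT e] at this
    · intro γ hγ hlγ
      rcases hγ.lt_or_eq with h1 | rfl
      · simp only [h1, if_true]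
        obtain ⟨T, hT, e⟩ := ih γ h1
        rw [← e, hT.lim γ le_rfl hlγ]
        refine limitDigraph_congr ?_
        intro ξ hξ
        simp only [hξ.trans h1, if_true]
        exact key γ h1 ξ hξ.le T hT e
      · simp only [lt_irrefl, if_false]
        refine limitDigraph_congr ?_
        intro ξ hξ
        simp only [hξ, if_true]
    · simp only [lt_irrefl, if_false]

theorem Unr.stable {D : Digraph V} {α : Ordinal.{u}} {C : Ordinal.{u} → Set (V × V)}
    {S : Ordinal.{u} → Digraph V} (hS : Unr D α C S) (β : Ordinal.{u}) (u v : V) :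
    ∀ ξ, β ≤ ξ → ξ ≤ α → (∀ η, β ≤ η → η < ξ → (u, v) ∉ C η ∧ (v, u) ∉ C η) →
      ((S ξ).Adj u v ↔ (S β).Adj u v) := by
  intro ξ
  induction ξ using WellFoundedLT.induction with
  | ind ξ ih =>
    intro h1 h2 h3
    rcases h1.eq_or_lt with rfl | h1
    · exact Iff.rfl
    rcases Ordinal.zero_or_succ_or_isSuccLimit ξ with rfl | ⟨η, rfl⟩ | hl
    · exact absurd h1 not_lt_bot
    · have hη : η < Order.succ η := Order.lt_succ η
      have hβ : β ≤ η := Order.lt_succ_iff.1 h1
      have e := ih η hη hβ (hη.le.trans h2) (fun ζ a b => h3 ζ a (b.trans hη))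
      rw [← e, Order.succ_eq_add_one, hS.succ η (lt_of_lt_of_le hη h2)]
      obtain ⟨a, b⟩ := h3 η hβ hη
      simp [reverse, a, b]
    · rw [hS.lim ξ h2 hl]
      constructor
      · rintro ⟨β', h4, h5⟩
        have h6 : max β β' < ξ := max_lt h1 h4
        have := h5 (max β β') (le_max_right _ _) h6
        exact (ih (max β β') h6 (le_max_left _ _) (h6.le.trans h2)
          (fun ζ a b => h3 ζ a (b.trans h6))).1 this
      · intro h
        refine ⟨β, h1, fun ζ a b => ?_⟩
        exact (ih ζ b a (b.le.trans h2) (fun ζ' a' b' => h3 ζ' a' (b'.trans b))).2 h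

theorem reverse_good {R : Digraph V} {A : Set (V × V)} (hR : Oriented R)
    (hA : ∀ e ∈ A, R.Adj e.1 e.2) :
    Oriented (reverse R A) ∧
      ∀ u v, ((reverse R A).Adj u v ∨ (reverse R A).Adj v u) ↔ (R.Adj u v ∨ R.Adj v u) := by
  obtain ⟨h1, h2⟩ := hR
  refine ⟨⟨?_, ?_⟩, ?_⟩
  · rintro v (⟨h, _⟩ | h)
    · exact h1 v h
    · exact h1 v (hA _ h)
  · rintro u v (⟨h, h'⟩ | h) (⟨g, g'⟩ | g)
    · exact h2 _ _ h g
    · exact h' g
    · exact g' h
    · exact h2 _ _ (hA _ h) (hA _ g)
  · intro u v
    constructor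
    · rintro ((⟨h, _⟩ | h) | (⟨h, _⟩ | h))
      · exact Or.inl h
      · exact Or.inr (hA _ h)
      · exact Or.inr h
      · exact Or.inl (hA _ h)
    · rintro (h | h)
      · by_cases hh : (u, v) ∈ A
        · exact Or.inr (Or.inr hh)
        · exact Or.inl (Or.inl ⟨h, hh⟩)
      · by_cases hh : (v, u) ∈ A
        · exact Or.inl (Or.inr hh)
        · exact Or.inr (Or.inl ⟨h, hh⟩)

theorem IsDirectedCycle.sub {R : Digraph V} {A : Set (V × V)} (h : IsDirectedCycle R A) :
    ∀ e ∈ A, R.Adj e.1 e.2 := by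
  obtain ⟨n, c, _, h2, rfl⟩ := h
  rintro _ ⟨i, rfl⟩
  exact h2 i

theorem exists_bound {γ : Ordinal.{u}} (hγ : IsSuccLimit γ) {s : Set Ordinal.{u}}
    (hs : s.Finite) : (∀ ξ ∈ s, ξ < γ) → ∃ β < γ, ∀ ξ ∈ s, ξ < β := by
  induction s, hs using Set.Finite.induction_on with
  | empty => exact fun _ => ⟨0, hγ.bot_lt, by simp⟩
  | @insert a s _ _ ih =>
    intro h
    obtain ⟨β, h1, h2⟩ := ih (fun ξ hξ => h ξ (Set.mem_insert_of_mem _ hξ))
    have h3 : Order.succ a < γ := hγ.succ_lt (h a (Set.mem_insert _ _))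
    refine ⟨max β (Order.succ a), max_lt h1 h3, ?_⟩
    rintro ξ (rfl | hξ)
    · exact lt_of_lt_of_le (Order.lt_succ _) (le_max_right _ _)
    · exact lt_of_lt_of_le (h2 ξ hξ) (le_max_left _ _)

theorem Unr.good {D : Digraph V} {α : Ordinal.{u}} {C : Ordinal.{u} → Set (V × V)}
    {S : Ordinal.{u} → Digraph V} (hS : Unr D α C S) (hD : Oriented D) :
    ∀ ξ, ξ ≤ α → Oriented (S ξ) ∧
      ∀ u v, ((S ξ).Adj u v ∨ (S ξ).Adj v u) ↔ (D.Adj u v ∨ D.Adj v u) := by
  intro ξ
  induction ξ using WellFoundedLT.induction with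
  | ind ξ ih =>
    intro h1
    rcases Ordinal.zero_or_succ_or_isSuccLimit ξ with rfl | ⟨η, rfl⟩ | hl
    · rw [hS.zero]
      exact ⟨hD, fun _ _ => Iff.rfl⟩
    · have hη : η < Order.succ η := Order.lt_succ η
      have hηα : η < α := lt_of_lt_of_le hη h1
      obtain ⟨a, b⟩ := ih η hη hηα.le
      obtain ⟨a', b'⟩ := reverse_good a (hS.cyc η hηα).sub
      rw [Order.succ_eq_add_one, hS.succ η hηα]
      exact ⟨a', fun u v => (b' u v).trans (b u v)⟩
    · refine ⟨⟨?_, ?_⟩, ?_⟩
      · intro v hv
        rw [hS.lim ξ h1 hl] at hv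
        obtain ⟨β, h2, h3⟩ := hv
        exact (ih β h2 (h2.le.trans h1)).1.1 v (h3 β le_rfl h2)
      · intro u v huv hvu
        rw [hS.lim ξ h1 hl] at huv hvu
        obtain ⟨β, h2, h3⟩ := huv
        obtain ⟨β', h2', h3'⟩ := hvu
        have h4 : max β β' < ξ := max_lt h2 h2'
        exact (ih _ h4 (h4.le.trans h1)).1.2 u v (h3 _ (le_max_left _ _) h4)
          (h3' _ (le_max_right _ _) h4)
      · intro u v
        obtain ⟨β, hβ, hβ'⟩ := exists_bound hl ((hS.lf.mono h1) u v) (fun _ h => h.1)
        have st : ∀ ζ, β ≤ ζ → ζ < ξ →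
            (((S ζ).Adj u v ↔ (S β).Adj u v) ∧ ((S ζ).Adj v u ↔ (S β).Adj v u)) := by
          intro ζ h5 h6
          have h7 : ∀ η, β ≤ η → η < ζ → (u, v) ∉ C η ∧ (v, u) ∉ C η := by
            intro η h8 h9
            by_contra hcon
            have : (u, v) ∈ C η ∨ (v, u) ∈ C η := by tauto
            exact absurd (hβ' η ⟨h9.trans h6, this⟩) (not_lt.2 h8)
          exact ⟨hS.stable β u v ζ h5 (h6.le.trans h1) h7,
            hS.stable β v u ζ h5 (h6.le.trans h1) (fun η a b => (h7 η a b).symm)⟩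
        rw [hS.lim ξ h1 hl, ← (ih β hβ (hβ.le.trans h1)).2 u v]
        constructor
        · rintro (⟨β', h2, h3⟩ | ⟨β', h2, h3⟩)
          · have h4 : max β β' < ξ := max_lt hβ h2
            exact Or.inl ((st _ (le_max_left _ _) h4).1.1 (h3 _ (le_max_right _ _) h4))
          · have h4 : max β β' < ξ := max_lt hβ h2
            exact Or.inr ((st _ (le_max_left _ _) h4).2.1 (h3 _ (le_max_right _ _) h4))
        · rintro (h | h)
          · exact Or.inl ⟨β, hβ, fun ζ h5 h6 => (st ζ h5 h6).1.2 h⟩
          · exact Or.inr ⟨β, hβ, fun ζ h5 h6 => (st ζ h5 h6).2.2 h⟩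

theorem cyc_cross {n : ℕ} (P : Fin (n + 1) → Prop) :
    {i | P i ∧ ¬ P (i + 1)}.encard = {i | ¬ P i ∧ P (i + 1)}.encard := by
  classical
  have h1 : (Finset.univ.filter (fun i => P (i + 1))).card = (Finset.univ.filter P).card := by
    refine Finset.card_bij (fun i _ => i + 1) ?_ ?_ ?_
    · intro a ha
      simpa using ha
    · intro a _ b _ h
      exact add_right_cancel h
    · intro b hb
      exact ⟨b - 1, by simpa using hb, by simp⟩
  have h2 : (Finset.univ.filter P).card =
      (Finset.univ.filter (fun i => P i ∧ P (i + 1))).card +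
      (Finset.univ.filter (fun i => P i ∧ ¬ P (i + 1))).card := by
    rw [← Finset.card_union_of_disjoint]
    · congr 1
      ext i
      simp only [Finset.mem_filter, Finset.mem_univ, true_and, Finset.mem_union]
      tauto
    · rw [Finset.disjoint_filter]
      tauto
  have h3 : (Finset.univ.filter (fun i => P (i + 1))).card =
      (Finset.univ.filter (fun i => P i ∧ P (i + 1))).card +
      (Finset.univ.filter (fun i => ¬ P i ∧ P (i + 1))).card := by
    rw [← Finset.card_union_of_disjoint]
    · congr 1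
      ext i
      simp only [Finset.mem_filter, Finset.mem_univ, true_and, Finset.mem_union]
      tauto
    · rw [Finset.disjoint_filter]
      tauto
  have h4 : (Finset.univ.filter (fun i => P i ∧ ¬ P (i + 1))).card =
      (Finset.univ.filter (fun i => ¬ P i ∧ P (i + 1))).card := by omega
  have e1 : {i | P i ∧ ¬ P (i + 1)} =
      ((Finset.univ.filter (fun i => P i ∧ ¬ P (i + 1)) : Finset (Fin (n + 1))) : Set _) := by
    ext i; simp
  have e2 : {i | ¬ P i ∧ P (i + 1)} =
      ((Finset.univ.filter (fun i => ¬ P i ∧ P (i + 1)) : Finset (Fin (n + 1))) : Set _) := by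
    ext i; simp
  rw [e1, e2, Set.encard_coe_eq_coe_finsetCard, Set.encard_coe_eq_coe_finsetCard, h4]

theorem entering_reverse_le {R : Digraph V} {A : Set (V × V)} (hA : IsDirectedCycle R A)
    (X : Set V) : (entering (reverse R A) X).encard ≤ (entering R X).encard := by
  obtain ⟨n, c, hinj, hadj, rfl⟩ := hA
  set A := Set.range (fun i => (c i, c (i + 1))) with hAdef
  have hsub : entering (reverse R A) X ⊆
      (entering R X \ A) ∪ (fun i => (c (i + 1), c i)) '' {i | c i ∈ X ∧ ¬ (c (i + 1) ∈ X)} := by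
    rintro ⟨u, v⟩ ⟨h1, h2, h3⟩
    rcases h1 with ⟨h1, h4⟩ | ⟨i, h1⟩
    · exact Or.inl ⟨⟨h1, h2, h3⟩, h4⟩
    · right
      simp only [Prod.mk.injEq] at h1
      obtain ⟨rfl, rfl⟩ := h1
      exact ⟨i, ⟨h3, h2⟩, rfl⟩
  have hin : (entering R X ∩ A) =
      (fun i => (c i, c (i + 1))) '' {i | ¬ (c i ∈ X) ∧ c (i + 1) ∈ X} := by
    ext ⟨u, v⟩
    constructor
    · rintro ⟨⟨_, h2, h3⟩, ⟨i, h1⟩⟩
      simp only [Prod.mk.injEq] at h1
      obtain ⟨rfl, rfl⟩ := h1
      exact ⟨i, ⟨h2, h3⟩, rfl⟩
    · rintro ⟨i, ⟨h2, h3⟩, h1⟩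
      simp only [Prod.mk.injEq] at h1
      obtain ⟨rfl, rfl⟩ := h1
      exact ⟨⟨hadj i, h2, h3⟩, ⟨i, rfl⟩⟩
  have hinj2 : Function.Injective (fun i : Fin (n + 1) => (c i, c (i + 1))) := by
    intro i j h
    simp only [Prod.mk.injEq] at h
    exact hinj h.1
  calc (entering (reverse R A) X).encard
      ≤ ((entering R X \ A) ∪
          (fun i => (c (i + 1), c i)) '' {i | c i ∈ X ∧ ¬ (c (i + 1) ∈ X)}).encard :=
        Set.encard_le_encard hsub
    _ ≤ (entering R X \ A).encard +
          ((fun i => (c (i + 1), c i)) '' {i | c i ∈ X ∧ ¬ (c (i + 1) ∈ X)}).encard :=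
        Set.encard_union_le _ _
    _ ≤ (entering R X \ A).encard + {i | c i ∈ X ∧ ¬ (c (i + 1) ∈ X)}.encard :=
        add_le_add le_rfl (Set.encard_image_le _ _)
    _ = (entering R X \ A).encard + {i | ¬ (c i ∈ X) ∧ c (i + 1) ∈ X}.encard := by
        rw [cyc_cross (fun i => c i ∈ X)]
    _ = (entering R X \ A).encard + (entering R X ∩ A).encard := by
        rw [hin, hinj2.encard_image]
    _ = (entering R X).encard := Set.encard_sdiff_add_encard_inter _ _

theorem Unr.entering_le {D : Digraph V} {α : Ordinal.{u}} {C : Ordinal.{u} → Set (V × V)}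
    {S : Ordinal.{u} → Digraph V} (hS : Unr D α C S) (X : Set V) (b : ℕ)
    (hb : (entering D X).encard ≤ b) :
    ∀ ξ, ξ ≤ α → (entering (S ξ) X).encard ≤ b := by
  intro ξ
  induction ξ using WellFoundedLT.induction with
  | ind ξ ih =>
    intro h1
    rcases Ordinal.zero_or_succ_or_isSuccLimit ξ with rfl | ⟨η, rfl⟩ | hl
    · rw [hS.zero]; exact hb
    · have hη : η < Order.succ η := Order.lt_succ η
      have hηα : η < α := lt_of_lt_of_le hη h1
      rw [Order.succ_eq_add_one, hS.succ η hηα]
      exact (entering_reverse_le (hS.cyc η hηα) X).trans (ih η hη hηα.le)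
    · by_contra hcon
      rw [not_le] at hcon
      have h2 : ((b + 1 : ℕ) : ℕ∞) ≤ (entering (S ξ) X).encard := by
        rw [Nat.cast_add, Nat.cast_one]
        exact Order.add_one_le_of_lt hcon
      obtain ⟨t, ht1, ht2⟩ := Set.exists_subset_encard_eq h2
      have htf : t.Finite := Set.finite_of_encard_eq_coe ht2
      have key : ∀ t : Set (V × V), t.Finite → t ⊆ entering (S ξ) X →
          ∃ β < ξ, ∀ ζ, β ≤ ζ → ζ < ξ → t ⊆ entering (S ζ) X := by
        intro t ht
        induction t, ht using Set.Finite.induction_on with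
        | empty => exact fun _ => ⟨0, hl.bot_lt, fun _ _ _ => Set.empty_subset _⟩
        | @insert e t _ _ ih' =>
          intro h
          obtain ⟨β, h3, h4⟩ := ih' ((Set.subset_insert _ _).trans h)
          have h5 := h (Set.mem_insert e t)
          obtain ⟨h6, h7, h8⟩ := h5
          rw [hS.lim ξ h1 hl] at h6
          obtain ⟨β', h9, h10⟩ := h6
          refine ⟨max β β', max_lt h3 h9, fun ζ h11 h12 => ?_⟩
          rintro e' (rfl | he')
          · exact ⟨h10 ζ ((le_max_right _ _).trans h11) h12, h7, h8⟩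
          · exact h4 ζ ((le_max_left _ _).trans h11) h12 he'
      obtain ⟨β, h3, h4⟩ := key t htf ht1
      have h5 := Set.encard_le_encard (h4 β le_rfl h3)
      rw [ht2] at h5
      have h6 := h5.trans (ih β h3 (h3.le.trans h1))
      have h7 : b + 1 ≤ b := by exact_mod_cast h6
      omega

theorem strongOn_of_cuts {D : Digraph V} {T : Set V}
    (h : ∀ X ⊆ T, X.Nonempty → X ≠ T → ∃ u ∈ T, ∃ v ∈ X, u ∉ X ∧ D.Adj u v) :
    StrongOn D T := by
  intro u hu v hv
  by_contra hcon
  set R : Set V := {w | w ∈ T ∧ Relation.ReflTransGen (fun a b => a ∈ T ∧ b ∈ T ∧ D.Adj a b) u w}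
    with hR
  obtain ⟨a, ha, b, hb, hab, hadj⟩ := h (T \ R) Set.sdiff_subset ⟨v, hv, fun h' => hcon h'.2⟩
    (by
      intro h'
      have : u ∈ T \ R := by rw [h']; exact hu
      exact this.2 ⟨hu, Relation.ReflTransGen.refl⟩)
  have haR : a ∈ R := by
    by_contra h'
    exact hab ⟨ha, h'⟩
  exact hb.2 ⟨hb.1, haR.2.tail ⟨ha, hb.1, hadj⟩⟩

theorem exists_strongComponent {D : Digraph V} {T : Set V} (hT : StrongOn D T)
    (hne : T.Nonempty) : ∃ X, T ⊆ X ∧ IsStrongComponent D X := by
  obtain ⟨t, ht⟩ := hne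
  have mono : ∀ (Y : Set V) (a b : V),
      Relation.ReflTransGen (fun a b => a ∈ Y ∧ b ∈ Y ∧ D.Adj a b) a b →
      Relation.ReflTransGen D.Adj a b := by
    intro Y a b h
    exact Relation.ReflTransGen.mono
      (fun x y (h : x ∈ Y ∧ y ∈ Y ∧ D.Adj x y) => h.2.2) a b h
  set X : Set V := {v | Relation.ReflTransGen D.Adj v t ∧ Relation.ReflTransGen D.Adj t v}
    with hX
  have hTX : T ⊆ X := fun v hv => ⟨mono T _ _ (hT v hv t ht), mono T _ _ (hT t ht v hv)⟩
  refine ⟨X, hTX, ⟨⟨t, hTX ht⟩, ?_⟩, ?_⟩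
  · intro u hu v hv
    have h : Relation.ReflTransGen D.Adj u v := hu.1.trans hv.2
    clear_value X
    subst hX
    induction h with
    | refl => exact Relation.ReflTransGen.refl
    | @tail b c h1 h2 ih =>
      have hb : b ∈ {v | Relation.ReflTransGen D.Adj v t ∧ Relation.ReflTransGen D.Adj t v} :=
        ⟨Relation.ReflTransGen.head h2 hv.1, hu.2.trans h1⟩
      exact (ih hb).tail ⟨hb, hv, h2⟩
  · intro Y hY hXY v hv
    have htY : t ∈ Y := hXY (hTX ht)
    exact ⟨mono Y _ _ (hY.2 v hv t htY), mono Y _ _ (hY.2 t htY v hv)⟩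

end General

section Construction

/-- vertices of the example -/
abbrev W (p : ℕ) : Type := Option (ℕ × ZMod p) ⊕ ℕ

/-- the example -/
def Dk (k p L m : ℕ) : Digraph (W p) where
  Adj x y := match x, y with
    | Sum.inl none, Sum.inl none => False
    | Sum.inl none, Sum.inl (some (_, a)) => a.val < m
    | Sum.inl (some (_, a)), Sum.inl none => m ≤ a.val ∧ a.val < 2 * m
    | Sum.inl (some (i, a)), Sum.inl (some (j, b)) => i = j ∧ 1 ≤ (b - a).val ∧ (b - a).val ≤ L
    | Sum.inl none, Sum.inr _ => True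
    | Sum.inl (some (i, a)), Sum.inr n => ¬ (i = 0 ∧ a.val < k ∧ n < k)
    | Sum.inr _, Sum.inl none => False
    | Sum.inr n, Sum.inl (some (i, a)) => i = 0 ∧ a.val < k ∧ n < k
    | Sum.inr n, Sum.inr n' => n' < n

variable {k p L m : ℕ}

theorem val_neg_lt [Fact p.Prime] (hp : 2 * L + 1 ≤ p) (a b : ZMod p)
    (h1 : 1 ≤ (b - a).val) (h2 : (b - a).val ≤ L) : ¬ ((a - b).val ≤ L) := by
  have hne : b - a ≠ 0 := by
    intro h
    rw [h, ZMod.val_zero] at h1
    omega
  have : (a - b).val = p - (b - a).val := by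
    rw [← neg_sub b a, ZMod.neg_val, if_neg hne]
  omega

theorem oriented_Dk [Fact p.Prime] (hp : 2 * L + 1 ≤ p) : Oriented (Dk k p L m) := by
  constructor
  · rintro ((_ | ⟨i, a⟩) | n) h
    · exact h
    · have h' : i = i ∧ 1 ≤ (a - a).val ∧ (a - a).val ≤ L := h
      rw [sub_self, ZMod.val_zero] at h'
      omega
    · exact lt_irrefl n h
  · rintro ((_ | ⟨i, a⟩) | n) ((_ | ⟨j, b⟩) | n') h g
    · exact h
    · have h' : b.val < m := h
      have g' : m ≤ b.val ∧ b.val < 2 * m := g
      omega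
    · exact g
    · have h' : a.val < m := g
      have g' : m ≤ a.val ∧ a.val < 2 * m := h
      omega
    · have h' : i = j ∧ 1 ≤ (b - a).val ∧ (b - a).val ≤ L := h
      have g' : j = i ∧ 1 ≤ (a - b).val ∧ (a - b).val ≤ L := g
      exact val_neg_lt hp a b h'.2.1 h'.2.2 g'.2.2
    · have h' : ¬ (i = 0 ∧ a.val < k ∧ n' < k) := h
      have g' : i = 0 ∧ a.val < k ∧ n' < k := g
      exact h' g'
    · exact h
    · have h' : j = 0 ∧ b.val < k ∧ n < k := h
      have g' : ¬ (j = 0 ∧ b.val < k ∧ n < k) := g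
      exact g' h'
    · have h' : n' < n := h
      have g' : n < n' := g
      omega

theorem shift_arc [Fact p.Prime] (S : Set (ZMod p)) (hS : S.Nonempty) (hS' : S ≠ Set.univ)
    (d : ℕ) (h1 : 1 ≤ d) (h2 : d < p) : ∃ b, b ∉ S ∧ b + (d : ZMod p) ∈ S := by
  by_contra hcon
  push Not at hcon
  obtain ⟨a, ha⟩ := hS
  obtain ⟨b, hb⟩ : ∃ b, b ∉ S := by
    by_contra h
    push Not at h
    exact hS' (Set.eq_univ_of_forall h)
  have key : ∀ n : ℕ, b + (n : ZMod p) * (d : ZMod p) ∉ S := by
    intro n
    induction n with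
    | zero => simpa using hb
    | succ n ih =>
      have := hcon _ ih
      push_cast
      rw [add_mul, one_mul, ← add_assoc]
      exact this
  have hd : (d : ZMod p) ≠ 0 := by
    intro h
    rw [ZMod.natCast_eq_zero_iff] at h
    exact absurd (Nat.le_of_dvd (by omega) h) (by omega)
  have h3 := key (((a - b) / (d : ZMod p)).val)
  rw [ZMod.natCast_zmod_val, div_mul_cancel₀ _ hd, add_sub_cancel] at h3
  exact h3 ha

theorem many_arcs [Fact p.Prime] (hp : 2 * L + 1 ≤ p) (S : Set (ZMod p)) (hS : S.Nonempty)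
    (hS' : S ≠ Set.univ) :
    L ≤ {e : ZMod p × ZMod p | e.1 ∉ S ∧ e.2 ∈ S ∧ 1 ≤ (e.2 - e.1).val ∧
      (e.2 - e.1).val ≤ L}.ncard := by
  classical
  have h : ∀ d : ℕ, ∃ b : ZMod p, 1 ≤ d → d < p → b ∉ S ∧ b + (d : ZMod p) ∈ S := by
    intro d
    by_cases h : 1 ≤ d ∧ d < p
    · obtain ⟨b, hb⟩ := shift_arc S hS hS' d h.1 h.2
      exact ⟨b, fun _ _ => hb⟩
    · exact ⟨0, fun h1 h2 => absurd ⟨h1, h2⟩ h⟩
  choose f hf using h
  have hval : ∀ d, d < L + 1 → ((d : ℕ) : ZMod p).val = d := fun d hd =>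
    ZMod.val_natCast_of_lt (by omega)
  have h1 : ((Finset.Icc 1 L).image (fun d : ℕ => (f d, f d + (d : ZMod p)))).card = L := by
    rw [Finset.card_image_of_injOn]
    · simp
    · intro d hd d' hd' h
      simp only [Finset.coe_Icc, Set.mem_Icc] at hd hd'
      simp only [Prod.mk.injEq] at h
      have h3 : ((d : ℕ) : ZMod p) = ((d' : ℕ) : ZMod p) := by
        have := h.2
        rw [h.1] at this
        exact add_left_cancel this
      rw [← hval d (by omega), ← hval d' (by omega), h3]
  refine h1.symm.le.trans ?_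
  rw [← Set.ncard_coe_finset]
  refine Set.ncard_le_ncard ?_ (Set.toFinite _)
  intro e he
  simp only [Finset.coe_image, Finset.coe_Icc, Set.mem_image, Set.mem_Icc] at he
  obtain ⟨d, ⟨hd1, hd2⟩, rfl⟩ := he
  obtain ⟨h3, h4⟩ := hf d hd1 (by omega)
  refine ⟨h3, h4, ?_⟩
  simp only [add_sub_cancel_left]
  rw [hval d (by omega)]
  exact ⟨hd1, hd2⟩

/-- embedding of blob `j` -/
def bl (j : ℕ) (a : ZMod p) : W p := Sum.inl (some (j, a))

/-- the special vertex -/
def cc : W p := Sum.inl none

theorem bl_inj {i j : ℕ} {a b : ZMod p} (h : bl i a = bl j b) : i = j ∧ a = b := by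
  simp only [bl, Sum.inl.injEq, Option.some.injEq, Prod.mk.injEq] at h
  exact h

/-- arcs from the right part to the left part -/
def zin (k p : ℕ) : Finset (W p × W p) := by
  classical
  exact (Finset.range k ×ˢ Finset.range k).image
    (fun q => ((Sum.inr q.1 : W p), (bl 0 ((q.2 : ℕ) : ZMod p))))

theorem zin_card : (zin k p).card ≤ k * k := by
  classical
  unfold zin
  refine Finset.card_image_le.trans ?_
  simp

theorem mem_zin [Fact p.Prime] {n i : ℕ} {a : ZMod p} (h : i = 0 ∧ a.val < k ∧ n < k) :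
    ((Sum.inr n : W p), bl i a) ∈ zin k p := by
  classical
  obtain ⟨rfl, h1, h2⟩ := h
  unfold zin
  rw [Finset.mem_image]
  refine ⟨(n, a.val), ?_, ?_⟩
  · simp [h1, h2]
  · simp

/-- arcs from the special vertex to blob `j` -/
def cout (p j m : ℕ) : Finset (W p × W p) := by
  classical
  exact (Finset.range m).image (fun i => ((cc : W p), (bl j ((i : ℕ) : ZMod p))))

theorem mem_cout [Fact p.Prime] {j : ℕ} {a : ZMod p} (h : a.val < m) :
    ((cc : W p), bl j a) ∈ cout p j m := by
  classical
  unfold cout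
  rw [Finset.mem_image]
  exact ⟨a.val, by simp [h], by simp⟩

theorem cout_card_le {j : ℕ} : (cout p j m).card ≤ m := by
  classical
  unfold cout
  refine Finset.card_image_le.trans ?_
  simp

theorem cout_card [Fact p.Prime] {j : ℕ} (h : m ≤ p) : (cout p j m).card = m := by
  classical
  unfold cout
  rw [Finset.card_image_of_injOn]
  · simp
  · intro a ha b hb h'
    simp only [Finset.coe_range, Set.mem_Iio] at ha hb
    simp only [Prod.mk.injEq, true_and] at h'
    have h3 := (bl_inj h').2
    have h4 := congrArg ZMod.val h3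
    rwa [ZMod.val_natCast_of_lt (by omega), ZMod.val_natCast_of_lt (by omega)] at h4

/-- arcs from blob `j` to the special vertex -/
def cin (p j m m' : ℕ) : Finset (W p × W p) := by
  classical
  exact (Finset.Ico m m').image (fun i => ((bl j ((i : ℕ) : ZMod p)), (cc : W p)))

theorem mem_cin [Fact p.Prime] {j m' : ℕ} {a : ZMod p} (h : m ≤ a.val ∧ a.val < m') :
    (bl j a, (cc : W p)) ∈ cin p j m m' := by
  classical
  unfold cin
  rw [Finset.mem_image]
  exact ⟨a.val, by simp [h], by simp⟩

theorem cin_card_le {j m' : ℕ} : (cin p j m m').card ≤ m' - m := by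
  classical
  unfold cin
  refine Finset.card_image_le.trans ?_
  simp

theorem cin_card [Fact p.Prime] {j m' : ℕ} (h : m' ≤ p) : (cin p j m m').card = m' - m := by
  classical
  unfold cin
  rw [Finset.card_image_of_injOn]
  · simp
  · intro a ha b hb h'
    simp only [Finset.coe_Ico, Set.mem_Ico] at ha hb
    simp only [Prod.mk.injEq, and_true] at h'
    have h3 := (bl_inj h').2
    have h4 := congrArg ZMod.val h3
    rwa [ZMod.val_natCast_of_lt (by omega), ZMod.val_natCast_of_lt (by omega)] at h4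

/-- what we know about a digraph obtained by a reversal sequence -/
structure Reach {V : Type u} (D R : Digraph V) : Prop where
  ori : Oriented R
  edg : ∀ u v, (R.Adj u v ∨ R.Adj v u) ↔ (D.Adj u v ∨ D.Adj v u)
  ent : ∀ (X : Set V) (b : ℕ), (entering D X).encard ≤ b → (entering R X).encard ≤ b

theorem Rev.reach {V : Type u} {D : Digraph V} (hD : Oriented D) {α : Ordinal.{u}}
    {C : Ordinal.{u} → Set (V × V)} {R : Digraph V} (h : Rev D α C R) : Reach D R := by
  obtain ⟨S, hS, rfl⟩ := h.unr
  exact ⟨(hS.good hD α le_rfl).1, (hS.good hD α le_rfl).2,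
    fun X b hb => hS.entering_le X b hb α le_rfl⟩

/-- A blob cannot be split. -/
theorem blob_split [Fact p.Prime] (hp : 2 * L + 1 ≤ p) (hL : m + k * k < L) {R : Digraph (W p)}
    (hR : Reach (Dk k p L m) R) (j : ℕ) (X : Set (W p))
    (h1 : ∃ a : ZMod p, bl j a ∈ X) (h2 : ∃ a : ZMod p, bl j a ∉ X) :
    ∃ a b : ZMod p, bl j a ∉ X ∧ bl j b ∈ X ∧ R.Adj (bl j a) (bl j b) := by
  classical
  by_contra hcon
  push Not at hcon
  set S : Set (ZMod p) := {a | bl j a ∈ X} with hS
  -- arcs from S to the rest U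
  set E1 : Finset (ZMod p × ZMod p) := Finset.univ.filter
    (fun e => e.1 ∈ S ∧ e.2 ∉ S ∧ 1 ≤ (e.2 - e.1).val ∧ (e.2 - e.1).val ≤ L) with hE1
  -- arcs from the rest to S, listed backwards
  set E2 : Finset (ZMod p × ZMod p) := Finset.univ.filter
    (fun e => e.1 ∈ S ∧ e.2 ∉ S ∧ 1 ≤ (e.1 - e.2).val ∧ (e.1 - e.2).val ≤ L) with hE2
  have hdisj : Disjoint E1 E2 := by
    rw [Finset.disjoint_left]
    intro e h3 h4
    simp only [hE1, hE2, Finset.mem_filter, Finset.mem_univ, true_and] at h3 h4
    exact val_neg_lt hp e.1 e.2 h3.2.2.1 h3.2.2.2 h4.2.2.2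
  have hE2card : L ≤ E2.card := by
    have := many_arcs hp S h1 (by
      intro h
      obtain ⟨a, ha⟩ := h2
      exact ha (by
        have : a ∈ S := by rw [h]; trivial
        exact this))
    refine this.trans ?_
    rw [← Set.ncard_coe_finset]
    refine (Set.ncard_le_ncard_of_injOn (fun e : ZMod p × ZMod p => (e.2, e.1)) ?_ ?_
      (Set.toFinite _))
    · rintro e ⟨h3, h4, h5⟩
      simp only [hE2, Finset.coe_filter, Finset.mem_univ, true_and, Set.mem_ofPred_eq]
      exact ⟨h4, h3, h5⟩
    · intro e _ e' _ h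
      simp only [Prod.mk.injEq] at h
      exact Prod.ext h.2 h.1
  set φ : ZMod p × ZMod p → W p × W p := fun e => (bl j e.1, bl j e.2) with hφ
  have hφinj : Function.Injective φ := by
    intro e e' h
    simp only [hφ, Prod.mk.injEq] at h
    exact Prod.ext (bl_inj h.1).2 (bl_inj h.2).2
  set U : Set (W p) := {x | ∃ a : ZMod p, a ∉ S ∧ x = bl j a} with hU
  -- few arcs enter U in D
  have hD : entering (Dk k p L m) U ⊆ ((E1.image φ ∪ (cout p j m ∪ zin k p) : Finset _) : Set _) := by
    rintro ⟨x, y⟩ ⟨h3, h4, b, hb, hy⟩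
    simp only at h3 h4 hy
    subst hy
    rw [Finset.mem_coe, Finset.mem_union, Finset.mem_union]
    rcases x with (_ | ⟨i, a⟩) | n
    · have h5 : b.val < m := h3
      exact Or.inr (Or.inl (mem_cout h5))
    · have h5 : i = j ∧ 1 ≤ (b - a).val ∧ (b - a).val ≤ L := h3
      obtain ⟨rfl, h5⟩ := h5
      left
      rw [Finset.mem_image]
      refine ⟨(a, b), ?_, rfl⟩
      simp only [hE1, Finset.mem_filter, Finset.mem_univ, true_and]
      refine ⟨?_, hb, h5⟩
      by_contra h6
      exact h4 ⟨a, h6, rfl⟩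
    · have h5 : j = 0 ∧ b.val < k ∧ n < k := h3
      exact Or.inr (Or.inr (mem_zin h5))
  have hDcard : (entering (Dk k p L m) U).encard ≤ ((E1.card + (m + k * k) : ℕ) : ℕ∞) := by
    refine (Set.encard_le_encard hD).trans ?_
    rw [Set.encard_coe_eq_coe_finsetCard]
    norm_cast
    refine (Finset.card_union_le _ _).trans ?_
    refine add_le_add Finset.card_image_le ?_
    refine (Finset.card_union_le _ _).trans ?_
    exact add_le_add cout_card_le zin_card
  have hR1 := hR.ent U _ hDcard
  have hR2 : (((E1 ∪ E2).image φ : Finset _) : Set _) ⊆ entering R U := by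
    intro e he
    rw [Finset.mem_coe, Finset.mem_image] at he
    obtain ⟨⟨a, b⟩, hab, rfl⟩ := he
    have key : a ∈ S ∧ b ∉ S ∧ ((Dk k p L m).Adj (bl j a) (bl j b) ∨
        (Dk k p L m).Adj (bl j b) (bl j a)) := by
      rw [Finset.mem_union] at hab
      rcases hab with h3 | h3
      · simp only [hE1, Finset.mem_filter, Finset.mem_univ, true_and] at h3
        exact ⟨h3.1, h3.2.1, Or.inl ⟨rfl, h3.2.2⟩⟩
      · simp only [hE2, Finset.mem_filter, Finset.mem_univ, true_and] at h3
        exact ⟨h3.1, h3.2.1, Or.inr ⟨rfl, h3.2.2⟩⟩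
    obtain ⟨h3, h4, h5⟩ := key
    rw [← hR.edg] at h5
    have h6 : R.Adj (bl j a) (bl j b) := by
      rcases h5 with h5 | h5
      · exact h5
      · exact absurd h5 (hcon b a h4 h3)
    refine ⟨h6, ?_, ⟨b, h4, rfl⟩⟩
    rintro ⟨a', h7, h8⟩
    exact h7 ((bl_inj h8).2 ▸ h3)
  have hR3 := (Set.encard_le_encard hR2).trans hR1
  rw [Set.encard_coe_eq_coe_finsetCard, Finset.card_image_of_injective _ hφinj,
    Finset.card_union_of_disjoint hdisj] at hR3
  have hR4 : E1.card + E2.card ≤ E1.card + (m + k * k) := by exact_mod_cast hR3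
  omega

/-- The left part stays strong. -/
theorem left_strong [Fact p.Prime] (hp : 2 * L + 1 ≤ p) (hL : m + k * k < L)
    (hm : k * k < m) {R : Digraph (W p)}
    (hR : Reach (Dk k p L m) R) : StrongOn R (Set.range (Sum.inl : Option (ℕ × ZMod p) → W p)) := by
  classical
  apply strongOn_of_cuts
  intro X hXT hne hX
  by_contra hcon
  push Not at hcon
  have noarc : ∀ u ∈ Set.range (Sum.inl : Option (ℕ × ZMod p) → W p), ∀ v ∈ X, u ∉ X →
      ¬ R.Adj u v := fun u hu v hv h => hcon u hu v hv h
  have hblob : ∀ j (a b : ZMod p), bl j a ∈ X → bl j b ∈ X := by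
    intro j a b ha
    by_contra hb
    obtain ⟨c, d, h1, h2, h3⟩ := blob_split hp hL hR j X ⟨a, ha⟩ ⟨b, hb⟩
    exact noarc _ ⟨_, rfl⟩ _ h2 h1 h3
  by_cases hc : (cc : W p) ∈ X
  · -- some blob is missing
    obtain ⟨j, a0, hj⟩ : ∃ j, ∃ a : ZMod p, bl j a ∉ X := by
      by_contra h
      push Not at h
      apply hX
      apply Set.Subset.antisymm hXT
      rintro _ ⟨(_ | ⟨j, a⟩), rfl⟩
      · exact hc
      · exact h j a
    have hj' : ∀ a : ZMod p, bl j a ∉ X := fun a h => hj (hblob j a a0 h)
    set B : Set (W p) := {x | ∃ a : ZMod p, x = bl j a} with hB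
    have hD : entering (Dk k p L m) B ⊆ ((cout p j m ∪ zin k p : Finset _) : Set _) := by
      rintro ⟨x, y⟩ ⟨h3, h4, b, hy⟩
      simp only at h3 h4 hy
      subst hy
      rw [Finset.mem_coe, Finset.mem_union]
      rcases x with (_ | ⟨i, a⟩) | n
      · have h5 : b.val < m := h3
        exact Or.inl (mem_cout h5)
      · have h5 : i = j ∧ 1 ≤ (b - a).val ∧ (b - a).val ≤ L := h3
        exact absurd ⟨a, by rw [h5.1]; rfl⟩ h4
      · have h5 : j = 0 ∧ b.val < k ∧ n < k := h3
        exact Or.inr (mem_zin h5)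
    have hDcard : (entering (Dk k p L m) B).encard ≤ ((m + k * k : ℕ) : ℕ∞) := by
      refine (Set.encard_le_encard hD).trans ?_
      rw [Set.encard_coe_eq_coe_finsetCard]
      norm_cast
      exact (Finset.card_union_le _ _).trans (add_le_add cout_card_le zin_card)
    have hR1 := hR.ent B _ hDcard
    have hR2 : ((cout p j (2 * m) : Finset _) : Set _) ⊆ entering R B := by
      intro e he
      unfold cout at he
      rw [Finset.mem_coe, Finset.mem_image] at he
      obtain ⟨i, hi, rfl⟩ := he
      rw [Finset.mem_range] at hi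
      have hv : ((i : ℕ) : ZMod p).val = i := ZMod.val_natCast_of_lt (by omega)
      have h5 : (Dk k p L m).Adj cc (bl j (i : ZMod p)) ∨
          (Dk k p L m).Adj (bl j (i : ZMod p)) cc := by
        by_cases h6 : i < m
        · left
          change ((i : ℕ) : ZMod p).val < m
          rw [hv]; exact h6
        · right
          change m ≤ ((i : ℕ) : ZMod p).val ∧ ((i : ℕ) : ZMod p).val < 2 * m
          rw [hv]; omega
      rw [← hR.edg] at h5
      refine ⟨?_, ?_, ⟨_, rfl⟩⟩
      · rcases h5 with h5 | h5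
        · exact h5
        · exact absurd h5 (noarc _ ⟨_, rfl⟩ _ hc (hj' _))
      · rintro ⟨a, ha⟩
        simp [cc, bl] at ha
    have hR3 := (Set.encard_le_encard hR2).trans hR1
    rw [Set.encard_coe_eq_coe_finsetCard, cout_card (by omega)] at hR3
    have hR4 : 2 * m ≤ m + k * k := by exact_mod_cast hR3
    omega
  · -- some blob is contained
    obtain ⟨j, a0, hj⟩ : ∃ j, ∃ a : ZMod p, bl j a ∈ X := by
      obtain ⟨x, hx⟩ := hne
      obtain ⟨(_ | ⟨j, a⟩), rfl⟩ := hXT hx
      · exact absurd hx hc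
      · exact ⟨j, a, hx⟩
    have hj' : ∀ a : ZMod p, bl j a ∈ X := fun a => hblob j a0 a hj
    set Y : Set (W p) := {x | (∃ t, x = Sum.inl t) ∧ ∀ a : ZMod p, x ≠ bl j a} with hY
    have hD : entering (Dk k p L m) Y ⊆ ((cin p j m (2 * m) ∪ zin k p : Finset _) : Set _) := by
      rintro ⟨x, y⟩ ⟨h3, h4, ⟨t, hy⟩, hy'⟩
      simp only at h3 h4 hy hy'
      subst hy
      rw [Finset.mem_coe, Finset.mem_union]
      rcases x with (_ | ⟨i, a⟩) | n
      · exact absurd ⟨⟨_, rfl⟩, by intro a; simp [bl]⟩ h4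
      · have hij : i = j := by
          by_contra hij
          exact h4 ⟨⟨_, rfl⟩, by
            intro b hb
            exact hij (bl_inj (i := i) (j := j) (a := a) (b := b) hb).1⟩
        subst hij
        rcases t with _ | ⟨i', b⟩
        · have h5 : m ≤ a.val ∧ a.val < 2 * m := h3
          exact Or.inl (mem_cin h5)
        · have h5 : i = i' ∧ 1 ≤ (b - a).val ∧ (b - a).val ≤ L := h3
          exact absurd (by rw [h5.1]; rfl) (hy' b)
      · rcases t with _ | ⟨i', b⟩
        · exact absurd h3 (fun h => h)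
        · have h5 : i' = 0 ∧ b.val < k ∧ n < k := h3
          exact Or.inr (mem_zin h5)
    have hDcard : (entering (Dk k p L m) Y).encard ≤ ((m + k * k : ℕ) : ℕ∞) := by
      refine (Set.encard_le_encard hD).trans ?_
      rw [Set.encard_coe_eq_coe_finsetCard]
      norm_cast
      refine (Finset.card_union_le _ _).trans (add_le_add (cin_card_le.trans ?_) zin_card)
      omega
    have hR1 := hR.ent Y _ hDcard
    have hR2 : ((cin p j 0 (2 * m) : Finset _) : Set _) ⊆ entering R Y := by
      intro e he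
      unfold cin at he
      rw [Finset.mem_coe, Finset.mem_image] at he
      obtain ⟨i, hi, rfl⟩ := he
      rw [Finset.mem_Ico] at hi
      have hv : ((i : ℕ) : ZMod p).val = i := ZMod.val_natCast_of_lt (by omega)
      have h5 : (Dk k p L m).Adj cc (bl j (i : ZMod p)) ∨
          (Dk k p L m).Adj (bl j (i : ZMod p)) cc := by
        by_cases h6 : i < m
        · left
          change ((i : ℕ) : ZMod p).val < m
          rw [hv]; exact h6
        · right
          change m ≤ ((i : ℕ) : ZMod p).val ∧ ((i : ℕ) : ZMod p).val < 2 * m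
          rw [hv]; omega
      rw [← hR.edg] at h5
      refine ⟨?_, ?_, ⟨_, rfl⟩, ?_⟩
      · rcases h5 with h5 | h5
        · exact absurd h5 (noarc _ ⟨_, rfl⟩ _ (hj' _) hc)
        · exact h5
      · rintro ⟨_, h7⟩
        exact h7 _ rfl
      · intro a
        simp [cc, bl]
    have hR3 := (Set.encard_le_encard hR2).trans hR1
    rw [Set.encard_coe_eq_coe_finsetCard, cin_card (by omega)] at hR3
    have hR4 : 2 * m - 0 ≤ m + k * k := by exact_mod_cast hR3
    omega

theorem le_encard_of_finset {V : Type u} {s : Set (V × V)} (t : Finset (V × V))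
    (h : (t : Set (V × V)) ⊆ s) (hk : k ≤ t.card) : (k : ℕ∞) ≤ s.encard := by
  refine le_trans ?_ (Set.encard_le_encard h)
  rw [Set.encard_coe_eq_coe_finsetCard]
  exact_mod_cast hk

/-- every nonempty proper vertex set of the example is entered by at least `k` arcs -/
theorem arcStrong_Dk [Fact p.Prime] (hp : 2 * L + 1 ≤ p) (hL : m + k * k < L)
    (hm : k * k < m) (X : Set (W p)) (hne : X.Nonempty) (hX : X ≠ Set.univ) :
    (k : ℕ∞) ≤ (entering (Dk k p L m) X).encard := by
  classical
  have hk : k ≤ k * k := Nat.le_mul_self k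
  by_cases hsplit : ∃ j, (∃ a : ZMod p, bl j a ∈ X) ∧ (∃ a : ZMod p, bl j a ∉ X)
  · obtain ⟨j, h1, ⟨a2, h2⟩⟩ := hsplit
    set S : Set (ZMod p) := {a | bl j a ∈ X} with hS
    have hmany := many_arcs hp S h1 (by
      intro h
      exact h2 (by
        have : a2 ∈ S := by rw [h]; trivial
        exact this))
    set E : Finset (ZMod p × ZMod p) := Finset.univ.filter (fun e => e.1 ∉ S ∧ e.2 ∈ S ∧
      1 ≤ (e.2 - e.1).val ∧ (e.2 - e.1).val ≤ L) with hE
    have hEc : L ≤ E.card := by
      refine hmany.trans ?_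
      rw [← Set.ncard_coe_finset]
      refine Set.ncard_le_ncard ?_ (Set.toFinite _)
      intro e he
      simpa [hE] using he
    refine le_encard_of_finset (E.image (fun e => (bl j e.1, bl j e.2))) ?_ ?_
    · intro e he
      rw [Finset.mem_coe, Finset.mem_image] at he
      obtain ⟨⟨a, b⟩, hab, rfl⟩ := he
      simp only [hE, Finset.mem_filter, Finset.mem_univ, true_and] at hab
      exact ⟨⟨rfl, hab.2.2⟩, hab.1, hab.2.1⟩
    · rw [Finset.card_image_of_injective]
      · omega
      · intro e e' h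
        simp only [Prod.mk.injEq] at h
        exact Prod.ext (bl_inj h.1).2 (bl_inj h.2).2
  · push Not at hsplit
    by_cases hc : (cc : W p) ∈ X
    · by_cases hb : ∃ j, ∃ a : ZMod p, bl j a ∉ X
      · obtain ⟨j, a, ha⟩ := hb
        have hj : ∀ b : ZMod p, bl j b ∉ X := by
          intro b hb
          exact ha (hsplit j ⟨b, hb⟩ a)
        refine le_encard_of_finset (cin p j m (2 * m)) ?_ ?_
        · intro e he
          unfold cin at he
          rw [Finset.mem_coe, Finset.mem_image] at he
          obtain ⟨i, hi, rfl⟩ := he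
          rw [Finset.mem_Ico] at hi
          refine ⟨?_, hj _, hc⟩
          change m ≤ ((i : ℕ) : ZMod p).val ∧ ((i : ℕ) : ZMod p).val < 2 * m
          rw [ZMod.val_natCast_of_lt (by omega)]
          exact hi
        · rw [cin_card (by omega)]
          omega
      · push Not at hb
        by_cases hz : ∃ n, n < k ∧ (Sum.inr n : W p) ∉ X
        · obtain ⟨n, hn, hnX⟩ := hz
          refine le_encard_of_finset ((Finset.range k).image
            (fun i : ℕ => ((Sum.inr n : W p), bl 0 (i : ZMod p)))) ?_ ?_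
          · intro e he
            rw [Finset.mem_coe, Finset.mem_image] at he
            obtain ⟨i, hi, rfl⟩ := he
            rw [Finset.mem_range] at hi
            refine ⟨?_, hnX, hb _ _⟩
            change (0 : ℕ) = 0 ∧ ((i : ℕ) : ZMod p).val < k ∧ n < k
            rw [ZMod.val_natCast_of_lt (by omega)]
            exact ⟨rfl, hi, hn⟩
          · rw [Finset.card_image_of_injOn]
            · simp
            · intro a ha b hb' h'
              simp only [Finset.coe_range, Set.mem_Iio] at ha hb'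
              simp only [Prod.mk.injEq, true_and] at h'
              have h4 := congrArg ZMod.val (bl_inj h').2
              rwa [ZMod.val_natCast_of_lt (by omega), ZMod.val_natCast_of_lt (by omega)] at h4
        · push Not at hz
          obtain ⟨n, hn⟩ : ∃ n, (Sum.inr n : W p) ∉ X := by
            by_contra h
            push Not at h
            apply hX
            apply Set.eq_univ_of_forall
            rintro ((_ | ⟨j, a⟩) | n)
            · exact hc
            · exact hb j a
            · exact h n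
          have hnk : k ≤ n := by
            by_contra h
            exact hn (hz n (by omega))
          refine le_encard_of_finset ((Finset.range k).image
            (fun i : ℕ => ((Sum.inr n : W p), (Sum.inr i : W p)))) ?_ ?_
          · intro e he
            rw [Finset.mem_coe, Finset.mem_image] at he
            obtain ⟨i, hi, rfl⟩ := he
            rw [Finset.mem_range] at hi
            refine ⟨?_, hn, hz i hi⟩
            change i < n
            omega
          · rw [Finset.card_image_of_injective]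
            · simp
            · intro a b h
              simpa using h
    · by_cases hb : ∃ j, ∃ a : ZMod p, bl j a ∈ X
      · obtain ⟨j, a, ha⟩ := hb
        refine le_encard_of_finset (cout p j m) ?_ ?_
        · intro e he
          unfold cout at he
          rw [Finset.mem_coe, Finset.mem_image] at he
          obtain ⟨i, hi, rfl⟩ := he
          rw [Finset.mem_range] at hi
          refine ⟨?_, hc, hsplit j ⟨a, ha⟩ _⟩
          change ((i : ℕ) : ZMod p).val < m
          rw [ZMod.val_natCast_of_lt (by omega)]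
          exact hi
        · rw [cout_card (by omega)]
          omega
      · push Not at hb
        obtain ⟨n, hn⟩ : ∃ n, (Sum.inr n : W p) ∈ X := by
          obtain ⟨x, hx⟩ := hne
          rcases x with (_ | ⟨j, a⟩) | n
          · exact absurd hx hc
          · exact absurd hx (hb j a)
          · exact ⟨n, hx⟩
        refine le_encard_of_finset ((Finset.range k).image
          (fun i : ℕ => ((bl (i + 1) 0 : W p), (Sum.inr n : W p)))) ?_ ?_
        · intro e he
          rw [Finset.mem_coe, Finset.mem_image] at he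
          obtain ⟨i, hi, rfl⟩ := he
          refine ⟨?_, hb _ _, hn⟩
          change ¬ (i + 1 = 0 ∧ (0 : ZMod p).val < k ∧ n < k)
          omega
        · rw [Finset.card_image_of_injective]
          · simp
          · intro a b h
            simp only [Prod.mk.injEq, and_true] at h
            have := (bl_inj h).1
            omega

/-- deleting finitely many vertices leaves the underlying graph of the example connected -/
theorem conn_Dk [Fact p.Prime] (F : Finset (W p)) :
    ((SimpleGraph.fromRel (Dk k p L m).Adj).induce {v | v ∉ F}).Connected := by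
  classical
  have hleft : ∃ j : ℕ, (bl (j + 1) 0 : W p) ∉ F := by
    by_contra h
    push Not at h
    have hinj : Function.Injective (fun j : ℕ => (bl (j + 1) 0 : W p)) := by
      intro a b hab
      have := (bl_inj hab).1
      omega
    exact Set.infinite_range_of_injective hinj
      (F.finite_toSet.subset (by rintro _ ⟨j, rfl⟩; exact h j))
  have hright : ∃ n : ℕ, (Sum.inr (n + k) : W p) ∉ F := by
    by_contra h
    push Not at h
    have hinj : Function.Injective (fun j : ℕ => (Sum.inr (j + k) : W p)) := by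
      intro a b hab
      simp only [Sum.inr.injEq] at hab
      omega
    exact Set.infinite_range_of_injective hinj
      (F.finite_toSet.subset (by rintro _ ⟨j, rfl⟩; exact h j))
  obtain ⟨j, hj⟩ := hleft
  obtain ⟨n, hn⟩ := hright
  set G := (SimpleGraph.fromRel (Dk k p L m).Adj).induce {v | v ∉ F} with hG
  have h1 : ∀ x : {v // v ∈ {v : W p | v ∉ F}}, (∃ t, x.1 = Sum.inl t) →
      G.Adj x ⟨Sum.inr (n + k), hn⟩ := by
    rintro ⟨x, hx⟩ ⟨t, rfl⟩
    rw [hG, SimpleGraph.induce_adj, SimpleGraph.fromRel_adj]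
    refine ⟨by simp, Or.inl ?_⟩
    rcases t with _ | ⟨i, a⟩
    · trivial
    · change ¬ (i = 0 ∧ a.val < k ∧ n + k < k)
      omega
  have h2 : ∀ x : {v // v ∈ {v : W p | v ∉ F}}, (∃ t, x.1 = Sum.inr t) →
      G.Adj x ⟨bl (j + 1) 0, hj⟩ := by
    rintro ⟨x, hx⟩ ⟨t, rfl⟩
    rw [hG, SimpleGraph.induce_adj, SimpleGraph.fromRel_adj]
    refine ⟨by simp [bl], Or.inr ?_⟩
    change ¬ (j + 1 = 0 ∧ (0 : ZMod p).val < k ∧ t < k)
    omega
  have h3 : ∀ x : {v // v ∈ {v : W p | v ∉ F}}, G.Reachable x ⟨bl (j + 1) 0, hj⟩ := by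
    rintro ⟨x, hx⟩
    rcases x with t | t
    · exact (h1 ⟨_, hx⟩ ⟨t, rfl⟩).reachable.trans (h1 ⟨_, hj⟩ ⟨_, rfl⟩).symm.reachable
    · exact (h2 ⟨_, hx⟩ ⟨t, rfl⟩).reachable
  have : Nonempty {v // v ∈ {v : W p | v ∉ F}} := ⟨⟨_, hj⟩⟩
  exact ⟨fun x y => (h3 x).trans (h3 y).symm⟩

end Construction

/-- For every `k` there is a countable digraph `D` such that every nonempty proper vertex set is
entered by at least `k` arcs, the underlying graph stays connected after deleting any finite set
of vertices, and for every reversal sequence of `D` the resulting digraph has an infinite strong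
component. -/
theorem result : ∀ k : ℕ, ∃ (V : Type) (_ : Countable V) (D : Digraph V),
    Oriented D ∧
    (∀ X : Set V, X.Nonempty → X ≠ Set.univ → (k : ℕ∞) ≤ (entering D X).encard) ∧
    (∀ F : Finset V, ((SimpleGraph.fromRel D.Adj).induce {v | v ∉ F}).Connected) ∧
    ∀ (α : Ordinal.{0}) (C : Ordinal.{0} → Set (V × V)) (R : Digraph V), Rev D α C R →
      ∃ X : Set V, IsStrongComponent R X ∧ X.Infinite := by
  intro k
  set m := k * k + 1 with hm
  set L := 2 * (k * k) + 2 with hL
  obtain ⟨p, hp1, hp2⟩ := Nat.exists_infinite_primes (2 * L + 1)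
  have : Fact p.Prime := ⟨hp2⟩
  refine ⟨W p, inferInstance, Dk k p L m, oriented_Dk hp1, ?_, ?_, ?_⟩
  · intro X hne hX
    exact arcStrong_Dk hp1 (by omega) (by omega) X hne hX
  · intro F
    exact conn_Dk F
  · intro α C R h
    have hs := left_strong hp1 (by omega) (by omega) (h.reach (oriented_Dk hp1))
    obtain ⟨X, h1, h2⟩ := exists_strongComponent hs ⟨_, ⟨none, rfl⟩⟩
    refine ⟨X, h2, Set.Infinite.mono h1 ?_⟩
    apply Set.infinite_range_of_injective
    exact Sum.inl_injective

end Pool.Agent.Results.MP_cc637b_co.Negative
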